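import Pool.Agent.Helper44.GF.Defs

/-!
# Module CONV: the Schur factor is controlled by the Dirichlet form and the second order term
-/

open Finset

namespace Pool.Agent.Helper44.GF

section

variable {n : ℕ} {Y ι : Type} [Fintype Y] [DecidableEq Y] [Fintype ι]

/-- The quotient with the cut-off. -/
noncomputable def conv_Q (S : ι → Finset (Fin n)) (a : ι → ℝ) (r : Y → ℝ) (d : ℝ)
    (η : Finset (Fin n × Y)) (x y : Fin n × Y) : ℝ :=
  if r y.2 * A2 S a (tau d r η) x.1 y.1 ≤ A1 S a (tau d r η) x.1 then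
    A2 S a (tau d r η) x.1 y.1 / A1 S a (tau d r η) x.1 * r y.2 else 0

theorem conv_swap {X : Type} [DecidableEq X] (s : Finset X) (f : X → X → ℝ) :
    ∑ x ∈ s, ∑ y ∈ s.erase x, f x y = ∑ y ∈ s, ∑ x ∈ s.erase y, f x y := by
  apply Finset.sum_comm'
  intro x y
  simp only [Finset.mem_erase]
  constructor
  · rintro ⟨h1, h2, h3⟩; exact ⟨⟨fun h => h2 h.symm, h1⟩, h3⟩
  · rintro ⟨⟨h1, h2⟩, h3⟩; exact ⟨h2, fun h => h1 h.symm, h3⟩

theorem conv_tau (hMF1 : ST_MF1) (hMF3 : ST_MF3) {m : ℕ} {S : ι → Finset (Fin n)} {a : ι → ℝ}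
    {r z : Y → ℝ} {d s : ℝ} (h : MH m S a r z d s) (η : Finset (Fin n × Y)) (i : Fin n) :
    ∑ j, A2 S a (tau d r η) i j / A1 S a (tau d r η) i * tau d r η j = (m : ℝ) - 1 := by
  have h1 := (hMF1 n m ι S a h.hS (tau d r η)).2.2.2.2.2.1 i
  have h2 := (hMF3 n m Y ι S a r z d s h η).2.1 i
  have h3 : ∀ j, A2 S a (tau d r η) i j / A1 S a (tau d r η) i * tau d r η j
      = (A2 S a (tau d r η) i j * tau d r η j) / A1 S a (tau d r η) i := by
    intro j; ring
  rw [Finset.sum_congr rfl fun j _ => h3 j, ← Finset.sum_div, h1]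
  field_simp

theorem conv_eta (hMF1 : ST_MF1) (hMF3 : ST_MF3) {m : ℕ} {S : ι → Finset (Fin n)} {a : ι → ℝ}
    {r z : Y → ℝ} {d s : ℝ} (h : MH m S a r z d s) (η : Finset (Fin n × Y)) (i : Fin n) :
    ∑ y ∈ η, A2 S a (tau d r η) i y.1 / A1 S a (tau d r η) i * r y.2 ≤ (m : ℝ) - 1 := by
  have h2 := (hMF3 n m Y ι S a r z d s h η).2.1 i
  have h3 := (hMF3 n m Y ι S a r z d s h η).2.2.1 i
  rw [← conv_tau hMF1 hMF3 h η i]
  have e1 : ∑ y ∈ η, A2 S a (tau d r η) i y.1 / A1 S a (tau d r η) i * r y.2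
      = ∑ y : Fin n × Y, if y ∈ η then
          A2 S a (tau d r η) i y.1 / A1 S a (tau d r η) i * r y.2 else 0 := by
    rw [Finset.sum_ite_mem, Finset.univ_inter]
  rw [e1, Fintype.sum_prod_type]
  apply Finset.sum_le_sum
  intro j _
  have e2 : ∑ y : Y, (if (j, y) ∈ η then
        A2 S a (tau d r η) i (j, y).1 / A1 S a (tau d r η) i * r (j, y).2 else 0)
      = A2 S a (tau d r η) i j / A1 S a (tau d r η) i * ∑ y : Y, if (j, y) ∈ η then r y else 0 := by
    rw [Finset.mul_sum]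
    apply Finset.sum_congr rfl
    intro y _
    split_ifs <;> simp
  rw [e2]
  apply mul_le_mul_of_nonneg_left _ (div_nonneg (h3 j) h2.le)
  simp only [tau]
  linarith [h.hd]

theorem conv_sch (hMF1 : ST_MF1) (hMF3 : ST_MF3) {m : ℕ} {S : ι → Finset (Fin n)} {a : ι → ℝ}
    {r z : Y → ℝ} {d s : ℝ} (h : MH m S a r z d s) (η : Finset (Fin n × Y)) (x : Fin n × Y)
    (_hx : x ∉ η) :
    sch S a r z d η x ≤ ((m : ℝ) - 1) + ∑ y ∈ ηᶜ.erase x,
      bet S a d r z η y * (kk S a d r η x y * conv_Q S a r d η x y) := by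
  have h2 := (hMF3 n m Y ι S a r z d s h η).2.1
  have h3 := (hMF3 n m Y ι S a r z d s h η).2.2.1
  have h4 := (hMF1 n m ι S a h.hS (tau d r η)).2.2.2.2.1
  have e0 : ∑ y ∈ ηᶜ.erase x, bet S a d r z η y * (kk S a d r η x y * conv_Q S a r d η x y)
      = ∑ y ∈ ηᶜ, bet S a d r z η y * (kk S a d r η x y * conv_Q S a r d η x y) := by
    apply Finset.sum_erase
    simp only [conv_Q, h4]
    simp
  have e1 : ∑ y ∈ ηᶜ, bet S a d r z η y * (kk S a d r η x y * conv_Q S a r d η x y)
      = ∑ y : Fin n × Y, if y ∈ η then 0 else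
          bet S a d r z η y * (kk S a d r η x y * conv_Q S a r d η x y) := by
    rw [← Finset.univ_inter ηᶜ, ← Finset.sum_ite_mem]
    apply Finset.sum_congr rfl
    intro y _
    by_cases hy : y ∈ η
    · simp [hy]
    · simp [hy]
  rw [e0, e1, Fintype.sum_prod_type, ← conv_tau hMF1 hMF3 h η x.1, ← Finset.sum_add_distrib]
  simp only [sch]
  apply Finset.sum_le_sum
  intro j _
  have e2 : m1c d r z (A1 S a (tau d r η) x.1) (A2 S a (tau d r η) x.1 j)
      (A1 S a (tau d r η) j + r x.2 * A2 S a (tau d r η) x.1 j)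
      = d + ∑ y, if r y * A2 S a (tau d r η) x.1 j ≤ A1 S a (tau d r η) x.1 then
        z y * r y * Real.exp (-((A1 S a (tau d r η) j + r x.2 * A2 S a (tau d r η) x.1 j) * r y))
        else 0 := rfl
  have e3 : tau d r η j = d + ∑ y, if (j, y) ∈ η then r y else 0 := rfl
  rw [e2, e3, mul_add, mul_add, add_assoc]
  apply add_le_add le_rfl
  rw [Finset.mul_sum, Finset.mul_sum, ← Finset.sum_add_distrib]
  apply Finset.sum_le_sum
  intro y _
  have hq : 0 ≤ A2 S a (tau d r η) x.1 j / A1 S a (tau d r η) x.1 := div_nonneg (h3 _ _) (h2 _).le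
  by_cases hy : (j, y) ∈ η
  · rw [if_pos hy, if_pos hy, add_zero]
    apply mul_le_mul_of_nonneg_left _ hq
    split_ifs
    · have h5 : Real.exp (-((A1 S a (tau d r η) j + r x.2 * A2 S a (tau d r η) x.1 j) * r y)) ≤ 1 := by
        rw [Real.exp_le_one_iff]
        have : 0 ≤ (A1 S a (tau d r η) j + r x.2 * A2 S a (tau d r η) x.1 j) * r y :=
          mul_nonneg (add_nonneg (h2 j).le (mul_nonneg (h.hr _).le (h3 _ _))) (h.hr y).le
        linarith
      have h6 := h.hz1 y
      have h7 := h.hz y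
      have h8 := h.hr y
      calc z y * r y * Real.exp (-((A1 S a (tau d r η) j
            + r x.2 * A2 S a (tau d r η) x.1 j) * r y))
          ≤ z y * r y * 1 := mul_le_mul_of_nonneg_left h5 (by positivity)
        _ ≤ 1 * r y * 1 := by nlinarith
        _ = r y := by ring
    · exact (h.hr y).le
  · rw [if_neg hy, if_neg hy, mul_zero, zero_add]
    simp only [conv_Q, bet, kk]
    split_ifs
    · have e4 : Real.exp (-((A1 S a (tau d r η) j + r x.2 * A2 S a (tau d r η) x.1 j) * r y))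
          = Real.exp (-(r y * A1 S a (tau d r η) j))
            * Real.exp (-(r x.2 * r y * A2 S a (tau d r η) x.1 j)) := by
        rw [← Real.exp_add]
        congr 1
        ring
      rw [e4]
      apply le_of_eq
      ring
    · simp

theorem conv_term (hMF2 : ST_MF2) (hMF3 : ST_MF3) {m : ℕ} {S : ι → Finset (Fin n)} {a : ι → ℝ}
    {r z : Y → ℝ} {d s : ℝ} (h : MH m S a r z d s) (g : Finset (Fin n × Y) → ℝ)
    (η : Finset (Fin n × Y)) (x y : Fin n × Y) (_hx : x ∉ η) (hy : y ∈ η) :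
    dd g (η.erase y) x ^ 2 * conv_Q S a r d (η.erase y) x y
      ≤ 3 * (dd g η x ^ 2 * (A2 S a (tau d r η) x.1 y.1 / A1 S a (tau d r η) x.1 * r y.2))
        + 3 * dd2 g (η.erase y) x y ^ 2 := by
  have hins : insert y (η.erase y) = η := Finset.insert_erase hy
  have hne : y ∉ η.erase y := Finset.notMem_erase y η
  have k1 := (hMF2 n m Y ι S a r z d h.hS).2.2.2.1 (η.erase y) y x.1 hne
  have k2 := (hMF2 n m Y ι S a r z d h.hS).2.2.2.2 (η.erase y) y x.1 y.1 hne (Or.inr rfl)
  rw [hins] at k1 k2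
  have p1 := (hMF3 n m Y ι S a r z d s h (η.erase y)).2.1 x.1
  have p2 := (hMF3 n m Y ι S a r z d s h (η.erase y)).2.2.1 x.1 y.1
  have p3 := (hMF3 n m Y ι S a r z d s h η).2.1 x.1
  have p4 := h.hr y.2
  have eD : dd2 g (η.erase y) x y = dd g η x - dd g (η.erase y) x := by
    simp only [dd2, dd, hins]
    ring
  set u := dd g η x with hu
  set v := dd g (η.erase y) x with hv
  rw [eD, k2]
  simp only [conv_Q]
  set α := A1 S a (tau d r (η.erase y)) x.1
  set β := A2 S a (tau d r (η.erase y)) x.1 y.1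
  set α' := A1 S a (tau d r η) x.1
  set ρ := r y.2
  have hmain : v ^ 2 ≤ 3 / 2 * u ^ 2 + 3 * (u - v) ^ 2 := by nlinarith [sq_nonneg (3 * u - 4 * v), sq_nonneg (u - 2 * (v - u))]
  split_ifs with hc
  · have q1 : β / α * ρ ≤ 1 := by
      rw [div_mul_eq_mul_div, div_le_one p1]
      linarith [mul_comm β ρ]
    have q0 : 0 ≤ β / α * ρ := by positivity
    have q2 : β / α * ρ ≤ 2 * (β / α' * ρ) := by
      have : β / α ≤ 2 * (β / α') := by
        rw [← mul_div_assoc, div_le_div_iff₀ p1 p3]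
        have : α' ≤ 2 * α := by rw [k1]; linarith
        nlinarith
      nlinarith
    calc v ^ 2 * (β / α * ρ) ≤ (3 / 2 * u ^ 2 + 3 * (u - v) ^ 2) * (β / α * ρ) :=
          mul_le_mul_of_nonneg_right hmain q0
      _ = 3 / 2 * u ^ 2 * (β / α * ρ) + 3 * (u - v) ^ 2 * (β / α * ρ) := by ring
      _ ≤ 3 / 2 * u ^ 2 * (2 * (β / α' * ρ)) + 3 * (u - v) ^ 2 * 1 :=
          add_le_add (mul_le_mul_of_nonneg_left q2 (by positivity))
            (mul_le_mul_of_nonneg_left q1 (by positivity))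
      _ = 3 * (u ^ 2 * (β / α' * ρ)) + 3 * (u - v) ^ 2 := by ring
  · have : 0 ≤ β / α' * ρ := by positivity
    have t1 : 0 ≤ 3 * (u ^ 2 * (β / α' * ρ)) := by positivity
    have t2 : 0 ≤ 3 * (u - v) ^ 2 := by positivity
    linarith

end

theorem st_CONV (hGNZ : ST_GNZ) (hMF1 : ST_MF1) (hMF2 : ST_MF2) (hMF3 : ST_MF3) : ST_CONV := by
  intro n m Y ι _ _ _ S a r z d s h g
  have hC := (hMF2 n m Y ι S a r z d h.hS).2.1
  have hk := (hMF2 n m Y ι S a r z d h.hS).2.2.1
  have pW : ∀ η, 0 < wt S a d r z η := fun η => (hMF3 n m Y ι S a r z d s h η).2.2.2.1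
  have pB : ∀ η x, 0 < bet S a d r z η x := fun η x => (hMF3 n m Y ι S a r z d s h η).2.2.2.2.1 x
  -- the two sums obtained by the Mecke formula
  set F : Finset (Fin n × Y) → Fin n × Y → ℝ := fun η y =>
    ∑ x ∈ (insert y η)ᶜ, bet S a d r z (insert y η) x * (dd g η x ^ 2 * conv_Q S a r d η x y)
    with hF
  set G : Finset (Fin n × Y) → Fin n × Y → ℝ := fun η y =>
    ∑ x ∈ (insert y η)ᶜ, bet S a d r z (insert y η) x * dd2 g η x y ^ 2 with hG
  have gF := hGNZ (Fin n × Y) (wt S a d r z) (bet S a d r z) hC F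
  have gG := hGNZ (Fin n × Y) (wt S a d r z) (bet S a d r z) hC G
  have hce : ∀ (η : Finset (Fin n × Y)) (y : Fin n × Y), (insert y η)ᶜ = ηᶜ.erase y := by
    intro η y
    ext x
    simp
  -- the first sum
  have s1 : ∑ η, wt S a d r z η * ∑ x ∈ ηᶜ, bet S a d r z η x * dd g η x ^ 2 * sch S a r z d η x
      ≤ ((m : ℝ) - 1) * dir (wt S a d r z) (bet S a d r z) g
        + ∑ η, wt S a d r z η * ∑ y ∈ ηᶜ, bet S a d r z η y * F η y := by
    simp only [dir]
    rw [Finset.mul_sum, ← Finset.sum_add_distrib]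
    apply Finset.sum_le_sum
    intro η _
    rw [mul_left_comm, ← mul_add]
    apply mul_le_mul_of_nonneg_left _ (pW η).le
    have e1 : ∑ y ∈ ηᶜ, bet S a d r z η y * F η y
        = ∑ x ∈ ηᶜ, ∑ y ∈ ηᶜ.erase x, bet S a d r z η y * (bet S a d r z (insert y η) x
            * (dd g η x ^ 2 * conv_Q S a r d η x y)) := by
      rw [conv_swap]
      apply Finset.sum_congr rfl
      intro y _
      simp only [hF]
      rw [Finset.mul_sum, hce]
    rw [e1, Finset.mul_sum, ← Finset.sum_add_distrib]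
    apply Finset.sum_le_sum
    intro x hx
    have hx' : x ∉ η := by simpa using hx
    have h1 := conv_sch hMF1 hMF3 h η x hx'
    have h2 : 0 ≤ bet S a d r z η x * dd g η x ^ 2 := mul_nonneg (pB η x).le (sq_nonneg _)
    have h3 := mul_le_mul_of_nonneg_left h1 h2
    refine h3.trans (le_of_eq ?_)
    rw [mul_add, mul_comm _ ((m : ℝ) - 1), Finset.mul_sum]
    congr 1
    apply Finset.sum_congr rfl
    intro y hy
    have hy1 : y ∉ η := by
      have := (Finset.mem_erase.1 hy).2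
      simpa using this
    have hy2 : y ≠ x := (Finset.mem_erase.1 hy).1
    rw [hk η x y hx' hy1 hy2.symm]
    ring
  -- the second sum
  have s2 : ∑ η, wt S a d r z η * ∑ y ∈ η, F (η.erase y) y
      ≤ 3 * ((m : ℝ) - 1) * dir (wt S a d r z) (bet S a d r z) g
        + 3 * ∑ η, wt S a d r z η * ∑ y ∈ η, G (η.erase y) y := by
    simp only [dir]
    rw [Finset.mul_sum, Finset.mul_sum, ← Finset.sum_add_distrib]
    apply Finset.sum_le_sum
    intro η _
    have e1 : ∑ y ∈ η, F (η.erase y) y ≤ ∑ x ∈ ηᶜ, bet S a d r z η x * (3 * (dd g η x ^ 2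
          * ∑ y ∈ η, A2 S a (tau d r η) x.1 y.1 / A1 S a (tau d r η) x.1 * r y.2))
        + 3 * ∑ y ∈ η, G (η.erase y) y := by
      have e2 : ∑ x ∈ ηᶜ, bet S a d r z η x * (3 * (dd g η x ^ 2
          * ∑ y ∈ η, A2 S a (tau d r η) x.1 y.1 / A1 S a (tau d r η) x.1 * r y.2))
          = ∑ y ∈ η, ∑ x ∈ ηᶜ, bet S a d r z η x * (3 * (dd g η x ^ 2
          * (A2 S a (tau d r η) x.1 y.1 / A1 S a (tau d r η) x.1 * r y.2))) := by
        rw [Finset.sum_comm]
        apply Finset.sum_congr rfl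
        intro x _
        rw [Finset.mul_sum, Finset.mul_sum, Finset.mul_sum]
      rw [e2, Finset.mul_sum, ← Finset.sum_add_distrib]
      apply Finset.sum_le_sum
      intro y hy
      simp only [hF, hG]
      rw [Finset.insert_erase hy, Finset.mul_sum, ← Finset.sum_add_distrib]
      apply Finset.sum_le_sum
      intro x hx
      have hx' : x ∉ η := by simpa using hx
      have h1 := conv_term hMF2 hMF3 h g η x y hx' hy
      have h2 := mul_le_mul_of_nonneg_left h1 (pB η x).le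
      refine h2.trans (le_of_eq ?_)
      ring
    have e3 : ∑ x ∈ ηᶜ, bet S a d r z η x * (3 * (dd g η x ^ 2
          * ∑ y ∈ η, A2 S a (tau d r η) x.1 y.1 / A1 S a (tau d r η) x.1 * r y.2))
        ≤ 3 * ((m : ℝ) - 1) * ∑ x ∈ ηᶜ, bet S a d r z η x * dd g η x ^ 2 := by
      rw [Finset.mul_sum]
      apply Finset.sum_le_sum
      intro x _
      have h1 := conv_eta hMF1 hMF3 h η x.1
      have h2 : 0 ≤ bet S a d r z η x * (3 * dd g η x ^ 2) :=
        mul_nonneg (pB η x).le (by positivity)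
      have h3 := mul_le_mul_of_nonneg_left h1 h2
      linarith
    have e4 := mul_le_mul_of_nonneg_left (e1.trans (add_le_add_left e3 _)) (pW η).le
    refine e4.trans (le_of_eq ?_)
    ring
  have s3 : ∑ η, wt S a d r z η * ∑ y ∈ ηᶜ, bet S a d r z η y * G η y = P2 S a r z d g := by
    simp only [P2]
    apply Finset.sum_congr rfl
    intro η _
    congr 1
    rw [conv_swap]
    apply Finset.sum_congr rfl
    intro y hy
    have hy' : y ∉ η := by simpa using hy
    simp only [hG]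
    rw [Finset.mul_sum, hce]
    apply Finset.sum_congr rfl
    intro x hx
    have hx1 : x ∉ η := by
      have := (Finset.mem_erase.1 hx).2
      simpa using this
    have hx2 : x ≠ y := (Finset.mem_erase.1 hx).1
    rw [hk η x y hx1 hy' hx2]
    ring
  rw [gG, s3] at s2
  rw [← gF] at s1
  linarith

end Pool.Agent.Helper44.GF
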